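import Mathlib

/-!
# Two elementary lemmas on characters of finite cyclic groups
-/

set_option autoImplicit false

namespace Pool.Agent.N28.EB

open Finset

/-- Fourier inversion: a function on a finite abelian group without Fourier coefficients vanishes. -/
lemma fourier_zero {E : Type*} [CommGroup E] [Fintype E] (f : E → ℂ)
    (h : ∀ ψ : E →* ℂˣ, ∑ x : E, f x * (((ψ x)⁻¹ : ℂˣ) : ℂ) = 0) (e : E) : f e = 0 := by
  classical
  have : Fintype (Additive E) := Fintype.ofFinite _
  let χ : AddChar (Additive E) ℂ → (E →* ℂˣ) := fun ψ => ψ.toMonoidHom.toHomUnits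
  have hχ : ∀ (ψ : AddChar (Additive E) ℂ) (e : E), ((χ ψ e : ℂˣ) : ℂ) = ψ (Additive.ofMul e) :=
    fun ψ e => rfl
  have hE : (Nat.card E : ℂ) ≠ 0 := by exact_mod_cast Nat.card_pos.ne'
  have h1 : ∀ ψ : AddChar (Additive E) ℂ, ∑ x : E, f x * ψ (Additive.ofMul (x⁻¹ * e)) = 0 := by
    intro ψ
    have h2 := h (χ ψ)
    have h3 : ∀ x : E, f x * ψ (Additive.ofMul (x⁻¹ * e))
        = (f x * (((χ ψ x)⁻¹ : ℂˣ) : ℂ)) * ψ (Additive.ofMul e) := by
      intro x
      simp only [Units.val_inv_eq_inv_val, hχ, ofMul_mul, ofMul_inv,
        AddChar.map_add_eq_mul, AddChar.map_neg_eq_inv]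
      ring
    rw [Finset.sum_congr rfl (fun x _ => h3 x), ← Finset.sum_mul, h2, zero_mul]
  have h2 : ∀ x : E, ∑ ψ : AddChar (Additive E) ℂ, f x * ψ (Additive.ofMul (x⁻¹ * e))
      = if x = e then (Nat.card E : ℂ) * f e else 0 := by
    intro x
    rw [← Finset.mul_sum]
    rw [AddChar.sum_apply_eq_ite]
    by_cases hx : x = e
    · subst hx
      have hc : Fintype.card (Additive E) = Fintype.card E := Fintype.card_congr Additive.toMul
      simp [mul_comm, hc]
    · have : Additive.ofMul (x⁻¹ * e) ≠ 0 := by
        intro h
        apply hx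
        have : x⁻¹ * e = 1 := h
        exact (inv_mul_eq_one.mp this)
      rw [if_neg this, if_neg hx, mul_zero]
  have h4 : ∑ ψ : AddChar (Additive E) ℂ, ∑ x : E, f x * ψ (Additive.ofMul (x⁻¹ * e)) = 0 :=
    Finset.sum_eq_zero fun ψ _ => h1 ψ
  rw [Finset.sum_comm, Finset.sum_congr rfl (fun x _ => h2 x)] at h4
  simp only [Finset.sum_ite_eq', Finset.mem_univ, if_true] at h4
  exact (mul_eq_zero.mp h4).resolve_left hE

/-- Two integral functions on a group whose sums over all cyclic subgroups agree. -/
lemma comb {D : Type*} [Group D] (hpos : ∀ x : D, 0 < orderOf x) (t r : D → ℤ) (e : ℤ)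
    (hconj : ∀ x, t x⁻¹ = t x)
    (hr : ∀ x (k : ℕ), k.Coprime (orderOf x) → r (x ^ k) = r x)
    (hsum : ∀ x, ∑ i ∈ range (orderOf x), t (x ^ i) = ∑ i ∈ range (orderOf x), r (x ^ i))
    (hgal : ∀ x y : D, 2 < (orderOf x).totient → orderOf y = orderOf x → t x < e → t y ≤ t x)
    (hsmall : ∀ x, 2 < (orderOf x).totient → r x ≤ e) (x : D) : t x = r x := by
  classical
  have main : ∀ d : ℕ, ∀ x : D, orderOf x = d → t x = r x := by
    intro d
    induction d using Nat.strong_induction_on with
    | _ d ih =>
    intro x hx
    have hd : 0 < d := by rw [← hx]; exact hpos x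
    -- the sum over the generators
    have h1 : ∑ i ∈ (range d).filter (fun i => d.Coprime i), t (x ^ i)
        = (d.totient : ℤ) * r x := by
      have h2 := hsum x
      rw [hx, ← Finset.sum_filter_add_sum_filter_not (range d) (fun i => d.Coprime i),
        ← Finset.sum_filter_add_sum_filter_not (range d) (fun i => d.Coprime i)] at h2
      have h3 : ∑ i ∈ (range d).filter (fun i => ¬ d.Coprime i), t (x ^ i)
          = ∑ i ∈ (range d).filter (fun i => ¬ d.Coprime i), r (x ^ i) := by
        refine Finset.sum_congr rfl fun i hi => ?_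
        rw [Finset.mem_filter] at hi
        refine ih (orderOf (x ^ i)) ?_ _ rfl
        have hi0 : i ≠ 0 ∨ i = 0 := (em (i = 0)).symm
        rw [(orderOf_pos_iff.mp (hpos x)).orderOf_pow, hx]
        have hg : 1 < d.gcd i := by
          have h5 : d.gcd i ≠ 0 := (Nat.gcd_pos_of_pos_left _ hd).ne'
          have h6 : d.gcd i ≠ 1 := hi.2
          omega
        exact Nat.div_lt_self hd hg
      have h4 : ∑ i ∈ (range d).filter (fun i => d.Coprime i), r (x ^ i)
          = (d.totient : ℤ) * r x := by
        have h5 : ∀ i ∈ (range d).filter (fun i => d.Coprime i), r (x ^ i) = r x := by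
          intro i hi
          rw [Finset.mem_filter] at hi
          exact hr x i (by rw [hx]; exact hi.2.symm)
        rw [Finset.sum_congr rfl h5, Finset.sum_const, nsmul_eq_mul]
        rfl
      rw [h3, h4] at h2
      linarith
    have hφ : (0 : ℤ) < (d.totient : ℤ) := by exact_mod_cast Nat.totient_pos.mpr hd
    by_cases hsm : 2 < d.totient
    · have hre : r x ≤ e := hsmall x (by rw [hx]; exact hsm)
      have hcard : (((range d).filter (fun i => d.Coprime i)).card : ℤ) = (d.totient : ℤ) := rfl
      -- all values are at least r x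
      have h5 : ∀ i ∈ (range d).filter (fun i => d.Coprime i), r x ≤ t (x ^ i) := by
        intro i hi
        by_contra hlt
        push Not at hlt
        rw [Finset.mem_filter] at hi
        have h6 : ∀ j ∈ (range d).filter (fun i => d.Coprime i), t (x ^ j) < r x := by
          intro j hj
          rw [Finset.mem_filter] at hj
          have h7 : orderOf (x ^ i) = d := by
            rw [(orderOf_pos_iff.mp (hpos x)).orderOf_pow, hx, hi.2, Nat.div_one]
          have h8 : orderOf (x ^ j) = d := by
            rw [(orderOf_pos_iff.mp (hpos x)).orderOf_pow, hx, hj.2, Nat.div_one]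
          exact (hgal (x ^ i) (x ^ j) (by rw [h7]; exact hsm) (h8.trans h7.symm)
            (hlt.trans_le hre)).trans_lt hlt
        have h7 : ∑ j ∈ (range d).filter (fun i => d.Coprime i), t (x ^ j)
            < ∑ j ∈ (range d).filter (fun i => d.Coprime i), r x :=
          Finset.sum_lt_sum (fun j hj => (h6 j hj).le) ⟨i, Finset.mem_filter.mpr hi, h6 i
            (Finset.mem_filter.mpr hi)⟩
        rw [h1, Finset.sum_const, nsmul_eq_mul, hcard] at h7
        exact lt_irrefl _ h7
      have h6 : ∑ i ∈ (range d).filter (fun i => d.Coprime i), (t (x ^ i) - r x) = 0 := by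
        rw [Finset.sum_sub_distrib, h1, Finset.sum_const, nsmul_eq_mul, hcard, sub_self]
      have h7 := (Finset.sum_eq_zero_iff_of_nonneg
        (fun i hi => sub_nonneg.mpr (h5 i hi))).mp h6
      have hd1 : 1 < d := by
        by_contra h
        have : d = 1 := by omega
        rw [this] at hsm
        simp at hsm
      have h8 := h7 1 (Finset.mem_filter.mpr ⟨Finset.mem_range.mpr hd1, Nat.coprime_one_right d⟩)
      rw [pow_one] at h8
      linarith
    · -- at most two generators
      have h5 : ∀ i ∈ (range d).filter (fun i => d.Coprime i), t (x ^ i) = t x := by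
        intro i hi
        have hi' := Finset.mem_filter.mp hi
        rcases Nat.lt_or_ge d 2 with h2 | h2
        · have h6 : d = 1 := by omega
          have h7 : x = 1 := by rwa [h6, orderOf_eq_one_iff] at hx
          rw [h7, one_pow]
        · rcases eq_or_ne i 1 with h | hi1
          · rw [h, pow_one]
          · rcases eq_or_ne i (d - 1) with h | hi2
            · have h6 : x ^ i = x⁻¹ := by
                rw [h]
                refine eq_inv_of_mul_eq_one_left ?_
                rw [← pow_succ, Nat.sub_add_cancel hd, ← hx, pow_orderOf_eq_one]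
              rw [h6, hconj]
            · exfalso
              apply hsm
              have h7 : ({1, d - 1, i} : Finset ℕ) ⊆ (range d).filter (fun i => d.Coprime i) := by
                intro j hj
                simp only [Finset.mem_insert, Finset.mem_singleton] at hj
                rcases hj with rfl | rfl | rfl
                · exact Finset.mem_filter.mpr ⟨Finset.mem_range.mpr (by omega),
                    Nat.coprime_one_right d⟩
                · refine Finset.mem_filter.mpr ⟨Finset.mem_range.mpr (by omega), ?_⟩
                  rw [Nat.coprime_self_sub_right (by omega : 1 ≤ d)]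
                  exact Nat.coprime_one_right d
                · exact hi
              have h8 := Finset.card_le_card h7
              have h9 : ({1, d - 1, i} : Finset ℕ).card = 3 := by
                have h12 : (1 : ℕ) ≠ d - 1 := by
                  intro h10
                  have h11 : d = 2 := by omega
                  have h13 := Finset.mem_range.mp hi'.1
                  have h14 := hi'.2
                  have h15 : i ≠ 0 := by
                    rintro rfl
                    rw [Nat.coprime_zero_right] at h14
                    omega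
                  omega
                rw [Finset.card_insert_of_notMem, Finset.card_insert_of_notMem,
                  Finset.card_singleton]
                · rw [Finset.mem_singleton]; exact hi2.symm
                · simp only [Finset.mem_insert, Finset.mem_singleton, not_or]
                  exact ⟨h12, hi1.symm⟩
              rw [h9] at h8
              have h10 : ((range d).filter (fun i => d.Coprime i)).card = d.totient := rfl
              omega
      rw [Finset.sum_congr rfl h5, Finset.sum_const, nsmul_eq_mul] at h1
      have h6 : ((((range d).filter (fun i => d.Coprime i)).card : ℕ) : ℤ) = (d.totient : ℤ) := rfl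
      rw [h6] at h1
      exact mul_left_cancel₀ hφ.ne' h1
  exact main (orderOf x) x rfl

/-- Galois invariance of the multiplicities of a rational function. -/
lemma galois_inv {ι : Type*} (s : Finset ι) (q : ι → ℚ) (z : ι → ℂ) (d : ℕ) (hd : 0 < d)
    (hz : ∀ i ∈ s, z i ^ d = 1) (c : ℚ) (h : ∑ i ∈ s, (q i : ℂ) * z i = (c : ℂ)) (k : ℕ)
    (hk : k.Coprime d) : ∑ i ∈ s, (q i : ℂ) * z i ^ k = (c : ℂ) := by
  classical
  have : NeZero d := ⟨hd.ne'⟩
  have hω := Complex.isPrimitiveRoot_exp d hd.ne'
  set ω := Complex.exp (2 * Real.pi * Complex.I / d) with hωd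
  have hex : ∀ i ∈ s, ∃ a : ℕ, ω ^ a = z i := fun i hi =>
    let ⟨a, _, ha⟩ := hω.eq_pow_of_pow_eq_one (hz i hi)
    ⟨a, ha⟩
  choose! a ha using hex
  let f : Polynomial ℚ := ∑ i ∈ s, Polynomial.C (q i) * Polynomial.X ^ a i - Polynomial.C c
  have hf : ∀ w : ℂ, Polynomial.aeval w f = ∑ i ∈ s, (q i : ℂ) * w ^ a i - (c : ℂ) := by
    intro w
    simp [f, map_sum]
  have h1 : Polynomial.aeval ω f = 0 := by
    rw [hf, ← h, sub_eq_zero]
    exact Finset.sum_congr rfl fun i hi => by rw [ha i hi]
  have h2 : Polynomial.cyclotomic d ℚ ∣ f := by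
    rw [Polynomial.cyclotomic_eq_minpoly_rat hω hd]
    exact minpoly.dvd ℚ ω h1
  have h3 : Polynomial.aeval (ω ^ k) (Polynomial.cyclotomic d ℚ) = 0 := by
    have h4 : IsPrimitiveRoot (ω ^ k) d := hω.pow_of_coprime k hk
    have h5 := (Polynomial.isRoot_cyclotomic_iff (R := ℂ) (n := d)).mpr h4
    rw [Polynomial.IsRoot.def] at h5
    rw [Polynomial.aeval_def, Polynomial.eval₂_eq_eval_map, Polynomial.map_cyclotomic]
    exact h5
  have h4 : Polynomial.aeval (ω ^ k) f = 0 := by
    obtain ⟨g, hg⟩ := h2
    rw [hg, map_mul, h3, zero_mul]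
  rw [hf, sub_eq_zero] at h4
  rw [← h4]
  refine Finset.sum_congr rfl fun i hi => ?_
  rw [← ha i hi, ← pow_mul, ← pow_mul, mul_comm (a i) k]

end Pool.Agent.N28.EB
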