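import Mathlib
import Pool.Agent.H541R3.ART.Irr

/-!
# Artin twists of an abelian variety: definitions
-/

set_option autoImplicit false

namespace Pool.Agent.N28.EB

open Pool.Agent.H541R3.ART TensorProduct

/-- Functions with the formal properties of the twisted L-functions `L(A/K, χ, s)` near `s = 1`,
`χ` the irreducible characters of `G = Gal(F/K)`: they are meromorphic and not identically zero
near `1`, and `L(A/K, χ*, s̄)` is the complex conjugate of `L(A/K, χ, s)`, where `χ*` is the dual
character `g ↦ χ(g⁻¹)` (the Euler factors of `A` have rational coefficients). -/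
structure Twists (G : Type) [Group G] where
  L : (G → ℂ) → ℂ → ℂ
  mero : ∀ χ ∈ Irr G, MeromorphicAt (L χ) 1 ∧ meromorphicOrderAt (L χ) 1 ≠ ⊤
  conj : ∀ χ ∈ Irr G, ∀ s : ℂ, L (fun g => χ g⁻¹) (starRingEnd ℂ s) = starRingEnd ℂ (L χ s)

/-- `L(A/K, τ, s)` for a representation `τ` of `G` with the multiplicities `m χ`. -/
noncomputable def Twists.product {G : Type} [Group G] (D : Twists G) (m : (G → ℂ) → ℕ) (s : ℂ) : ℂ :=
  ∏ᶠ χ ∈ Irr G, D.L χ s ^ m χ

/-- Let `f : H → G` be a homomorphism (the inclusion of a subgroup, or the identity of `G`) and `φ`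
the character of a representation of `H`. `D.Order f φ k` says that the L-function of `φ` has order
`k` at `s = 1`: if `f` is the inclusion of the subgroup `H`, this is the L-function
`L(A/F^H, φ, s)` over the fixed field of `H`, which is the product of the `L(A/K, χ, s) ^ m χ` where
`m χ` is the multiplicity of `φ` in `χ|_H` (for irreducible `φ`), i.e. the scalar product. -/
def Twists.Order {G : Type} [Group G] (D : Twists G) {H : Type} [Group H] (f : H →* G)
    (φ : H → ℂ) (k : ℤ) : Prop :=
  ∃ m : (G → ℂ) → ℕ,
    (∀ χ ∈ Irr G, ∑ᶠ h : H, χ (f h) * φ h⁻¹ = (m χ : ℂ) * (Nat.card H : ℂ)) ∧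
    meromorphicOrderAt (D.product m) 1 = (k : WithTop ℤ)

/-- a linear character as a complex valued function -/
def lin {H : Type} [Group H] (ψ : H →* ℂˣ) (h : H) : ℂ := ((ψ h : ℂˣ) : ℂ)

/-- The complex representation `V ⊗ ℂ` of a rational representation `V`. -/
noncomputable def complexify {G V : Type} [Group G] [AddCommGroup V] [Module ℚ V]
    (ρ : Representation ℚ G V) : Representation ℂ G (ℂ ⊗[ℚ] V) where
  toFun g := (ρ g).baseChange ℂ
  map_one' := by
    rw [map_one]
    exact LinearMap.baseChange_id
  map_mul' g h := by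
    rw [map_mul]
    exact LinearMap.baseChange_mul _ _

/-- The multiplicity of a representation `τ` of `G` in `V ⊗ ℂ` (the dimension of the space of
`G`-homomorphisms); for `V = A(F) ⊗ ℚ` this is `⟨A(F)_ℂ, τ⟩`. -/
noncomputable def multiplicity {G V W : Type} [Group G] [AddCommGroup V] [Module ℚ V]
    [AddCommGroup W] [Module ℂ W] (τ : Representation ℂ G W) (ρ : Representation ℚ G V) : ℕ :=
  Module.finrank ℂ (Representation.IntertwiningMap τ (complexify ρ))

/-- The dimension of the vectors fixed by the subgroup `H`; for `V = A(F) ⊗ ℚ` this is the rank of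
`A(F^H)`. -/
noncomputable def fixedRank {G V : Type} [Group G] [AddCommGroup V] [Module ℚ V]
    (ρ : Representation ℚ G V) (H : Subgroup G) : ℕ :=
  Module.finrank ℚ (Representation.invariants (ρ.comp H.subtype))

end Pool.Agent.N28.EB
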