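import Mathlib
import Pool.Agent.R389.Quat
import Pool.Agent.N28.EB.Defs
import Pool.Agent.N28.EB.Comb

/-!
# Artin twists of an abelian variety: from the rank over the intermediate fields to all twists
-/

set_option autoImplicit false
set_option linter.unusedSectionVars false

namespace Pool.Agent.N28.EB

open Pool.Agent.H541R3.ART TensorProduct Filter Topology

/-- the dual character -/
lemma irr_inv {T : Type} [Group T] [Finite T] {χ : T → ℂ} (hχ : χ ∈ Irr T) :
    (fun g => χ g⁻¹) ∈ Irr T := by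
  classical
  have : Fintype T := Fintype.ofFinite T
  obtain ⟨d, hd, hd1⟩ := Pool.Agent.W446.AS.irr_deg_pos hχ
  obtain ⟨n, ρ, hρ, rfl⟩ := Pool.Agent.W446.AS.exists_rep hχ
  have hV : Pool.Agent.W446.AS.Virt (fun g => ρ.character g⁻¹) := by
    have h1 : (fun g => ρ.character g⁻¹) = ρ.dual.character := by
      funext g
      rw [Representation.char_dual]
    rw [h1]
    exact Pool.Agent.W446.AS.char_mem _ ρ.dual rfl
  refine Pool.Agent.R389.irr_of_norm hV ?_ (d := d) (by simpa using hd1)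
  have h2 := Pool.Agent.W446.AS.pr_self hχ
  rw [Pool.Agent.W446.AS.pr_eq] at h2 ⊢
  rw [← h2]
  congr 1
  refine Finset.sum_congr rfl fun g _ => ?_
  simp only [inv_inv]
  ring

variable {G : Type} [Group G] [Finite G] (D : Twists G)

/-- orders at `1` -/
noncomputable def Twists.ord (χ : G → ℂ) : ℤ := (meromorphicOrderAt (D.L χ) 1).untop₀

lemma Twists.coe_ord {χ : G → ℂ} (hχ : χ ∈ Irr G) :
    (D.ord χ : WithTop ℤ) = meromorphicOrderAt (D.L χ) 1 :=
  WithTop.coe_untop₀_of_ne_top (D.mero χ hχ).2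

lemma Twists.order_product (m : (G → ℂ) → ℕ) :
    meromorphicOrderAt (D.product m) 1 = ((∑ χ ∈ irrF G, (m χ : ℤ) * D.ord χ : ℤ) : WithTop ℤ) := by
  classical
  have h1 : D.product m = fun s => ∏ χ ∈ irrF G, (D.L χ ^ m χ) s := by
    funext s
    rw [Twists.product, finprod_mem_eq_finite_toFinset_prod _ (irr_finite (G := G))]
    rfl
  rw [h1, meromorphicOrderAt_fun_prod (fun χ hχ => ((D.mero χ (mem_irrF.mp hχ)).1).pow _)]
  rw [WithTop.coe_sum]
  refine Finset.sum_congr rfl fun χ hχ => ?_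
  rw [meromorphicOrderAt_pow ((D.mero χ (mem_irrF.mp hχ)).1), ← D.coe_ord (mem_irrF.mp hχ)]
  push_cast
  rfl

/-- the order and the function of the orders -/
lemma sum_of_mult {H : Type} [Group H] [Fintype H] (f : H →* G) (φ : H → ℂ)
    (m : (G → ℂ) → ℕ)
    (hm : ∀ χ ∈ Irr G, ∑ᶠ h : H, χ (f h) * φ h⁻¹ = (m χ : ℂ) * (Nat.card H : ℂ)) :
    ∑ h : H, theta D.ord (f h) * φ h⁻¹
      = ((∑ χ ∈ irrF G, (m χ : ℤ) * D.ord χ : ℤ) : ℂ) * (Nat.card H : ℂ) := by
  classical
  unfold theta
  simp_rw [Finset.sum_mul]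
  rw [Finset.sum_comm, Int.cast_sum, Finset.sum_mul]
  refine Finset.sum_congr rfl fun χ hχ => ?_
  have h1 := hm χ (mem_irrF.mp hχ)
  rw [finsum_eq_sum_of_fintype] at h1
  simp_rw [mul_assoc]
  rw [← Finset.mul_sum, h1]
  push_cast
  ring

lemma Twists.Order.sum {H : Type} [Group H] [Fintype H] {f : H →* G} {φ : H → ℂ} {k : ℤ}
    (h : D.Order f φ k) : ∑ h : H, theta D.ord (f h) * φ h⁻¹ = (k : ℂ) * (Nat.card H : ℂ) := by
  obtain ⟨m, hm, ho⟩ := h
  rw [sum_of_mult D f φ m hm]
  rw [D.order_product m] at ho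
  have : (∑ χ ∈ irrF G, (m χ : ℤ) * D.ord χ : ℤ) = k := by exact_mod_cast ho
  rw [this]

/-- every representation has an order -/
lemma exists_mult_rep {H : Type} [Group H] [Finite H] (f : H →* G) {W : Type} [AddCommGroup W]
    [Module ℂ W] [FiniteDimensional ℂ W] (τ : Representation ℂ H W) :
    ∃ m : (G → ℂ) → ℕ, ∀ χ ∈ Irr G,
      ∑ᶠ h : H, χ (f h) * τ.character h⁻¹ = (m χ : ℂ) * (Nat.card H : ℂ) := by
  classical
  have : Fintype H := Fintype.ofFinite H
  have hH : (Nat.card H : ℂ) ≠ 0 := by exact_mod_cast Nat.card_pos.ne'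
  have : Invertible (Nat.card H : ℂ) := invertibleOfNonzero hH
  have key : ∀ χ ∈ Irr G, ∃ k : ℕ,
      ∑ᶠ h : H, χ (f h) * τ.character h⁻¹ = (k : ℂ) * (Nat.card H : ℂ) := by
    rintro χ ⟨n, ρ, hρ, rfl⟩
    let σ : Representation ℂ H (Fin n → ℂ) := ρ.comp f
    have h := Representation.card_inv_mul_sum_char_mul_char_eq_finrank τ σ
    refine ⟨Module.finrank ℂ (Representation.IntertwiningMap τ σ), ?_⟩
    rw [← h, finsum_eq_sum_of_fintype]
    have h2 : ∀ x : H, σ.character x = ρ.character (f x) := fun x => rfl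
    simp_rw [h2]
    field_simp
  choose! m hm using key
  exact ⟨m, hm⟩

lemma exists_order {H : Type} [Group H] [Finite H] (f : H →* G) {W : Type} [AddCommGroup W]
    [Module ℂ W] [FiniteDimensional ℂ W] (τ : Representation ℂ H W) :
    ∃ k : ℤ, D.Order f τ.character k := by
  obtain ⟨m, hm⟩ := exists_mult_rep f τ
  exact ⟨_, m, hm, D.order_product m⟩

/-- the order of the dual character -/
lemma ord_dual {χ : G → ℂ} (hχ : χ ∈ Irr G) : D.ord (fun g => χ g⁻¹) = D.ord χ := by
  have h1 := D.mero χ hχ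
  have h2 := D.mero _ (irr_inv hχ)
  unfold Twists.ord
  congr 1
  obtain ⟨n, hn⟩ := WithTop.ne_top_iff_exists.mp h1.2
  rw [← hn]
  rw [meromorphicOrderAt_eq_int_iff h2.1]
  obtain ⟨g, hg, hg0, hgL⟩ := (meromorphicOrderAt_eq_int_iff h1.1).mp hn.symm
  have hc1 : starRingEnd ℂ (1 : ℂ) = 1 := map_one _
  refine ⟨fun z => starRingEnd ℂ (g (starRingEnd ℂ z)), ?_, ?_, ?_⟩
  · -- analytic
    have h3 : ∀ᶠ z in 𝓝 (1 : ℂ), DifferentiableAt ℂ g z := by
      filter_upwards [hg.eventually_analyticAt] with z hz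
      exact hz.differentiableAt
    have hcont : Tendsto (starRingEnd ℂ) (𝓝 (1 : ℂ)) (𝓝 (1 : ℂ)) := by
      have := Complex.continuous_conj.tendsto (1 : ℂ)
      rwa [hc1] at this
    have h4 := hcont.eventually h3
    rw [Complex.analyticAt_iff_eventually_differentiableAt]
    filter_upwards [h4] with z hz
    have h5 := hz.conj_conj
    simpa [Function.comp_def] using h5
  · simpa using hg0
  · have hcont : Tendsto (starRingEnd ℂ) (𝓝[≠] (1 : ℂ)) (𝓝[≠] (1 : ℂ)) := by
      rw [tendsto_nhdsWithin_iff]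
      refine ⟨?_, ?_⟩
      · have := Complex.continuous_conj.tendsto (1 : ℂ)
        rw [hc1] at this
        exact this.mono_left nhdsWithin_le_nhds
      · filter_upwards [self_mem_nhdsWithin] with z hz h
        apply hz
        have h' : starRingEnd ℂ z = 1 := h
        have := congrArg (starRingEnd ℂ) h'
        rwa [Complex.conj_conj, hc1] at this
    filter_upwards [hcont.eventually hgL] with z hz
    have h5 := D.conj χ hχ (starRingEnd ℂ z)
    rw [Complex.conj_conj] at h5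
    rw [h5, hz]
    simp only [smul_eq_mul, map_mul, map_zpow₀, map_sub, Complex.conj_conj, hc1]

/-- the function of the orders is real -/
lemma theta_inv (g : G) : theta D.ord g⁻¹ = theta D.ord g := by
  classical
  unfold theta
  refine Finset.sum_bij' (fun χ _ => fun g => χ g⁻¹) (fun χ _ => fun g => χ g⁻¹) ?_ ?_ ?_ ?_ ?_
  · intro χ hχ
    exact mem_irrF.mpr (irr_inv (mem_irrF.mp hχ))
  · intro χ hχ
    exact mem_irrF.mpr (irr_inv (mem_irrF.mp hχ))
  · intro χ _
    funext g
    simp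
  · intro χ _
    funext g
    simp
  · intro χ hχ
    rw [ord_dual D (mem_irrF.mp hχ)]

end Pool.Agent.N28.EB
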