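import Mathlib
import Pool.Agent.N28.EB.Main

/-!
# Artin twists of an abelian variety: the theorem
-/

set_option autoImplicit false
set_option linter.unusedSectionVars false

namespace Pool.Agent.N28.EB

open Pool.Agent.H541R3.ART TensorProduct Filter Topology

variable {G : Type} [Group G] [Finite G] (D : Twists G)
  {V : Type} [AddCommGroup V] [Module ℚ V] [FiniteDimensional ℚ V] (ρ : Representation ℚ G V)

lemma complexify_char {T : Type} [Group T] (ρ : Representation ℚ T V) (g : T) :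
    (complexify ρ).character g = ((ρ.character g : ℚ) : ℂ) := by
  change LinearMap.trace ℂ _ ((ρ g).baseChange ℂ) = _
  rw [LinearMap.trace_baseChange]
  rfl

/-- multiplicities in the complexification -/
lemma mult_sum {H : Type} [Group H] [Fintype H] (f : H →* G) {W : Type} [AddCommGroup W]
    [Module ℂ W] [FiniteDimensional ℂ W] (τ : Representation ℂ H W) :
    ∑ h : H, ((ρ.character (f h) : ℚ) : ℂ) * τ.character h⁻¹
      = (multiplicity τ (ρ.comp f) : ℂ) * (Nat.card H : ℂ) := by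
  have hH : (Nat.card H : ℂ) ≠ 0 := by exact_mod_cast Nat.card_pos.ne'
  have : Invertible (Nat.card H : ℂ) := invertibleOfNonzero hH
  have h := Representation.card_inv_mul_sum_char_mul_char_eq_finrank τ (complexify (ρ.comp f))
  unfold multiplicity
  rw [← h]
  have h2 : ∀ x : H, (complexify (ρ.comp f)).character x = ((ρ.character (f x) : ℚ) : ℂ) := by
    intro x
    rw [complexify_char]
    rfl
  simp_rw [h2]
  field_simp

/-- the fixed space -/
lemma fixed_sum (H : Subgroup G) [Fintype H] :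
    ∑ h : H, ((ρ.character (h : G) : ℚ) : ℂ) = (fixedRank ρ H : ℂ) * (Nat.card H : ℂ) := by
  have hH : (Nat.card H : ℚ) ≠ 0 := by exact_mod_cast Nat.card_pos.ne'
  have : Invertible (Nat.card H : ℚ) := invertibleOfNonzero hH
  have h := Representation.card_inv_mul_sum_char_eq_finrank (ρ.comp H.subtype)
  have h2 : ∑ h : H, ρ.character (h : G) = (fixedRank ρ H : ℚ) * (Nat.card H : ℚ) := by
    unfold fixedRank
    rw [← h]
    field_simp
    rfl
  have h3 := congrArg (fun q : ℚ => (q : ℂ)) h2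
  push_cast at h3
  exact h3

section cyclic

variable (H : Subgroup G)

/-- the multiplicity of a linear character of `H` in `V ⊗ ℂ` -/
noncomputable def rk (ψ : H →* ℂˣ) : ℕ := multiplicity (linRep ψ) (ρ.comp H.subtype)

lemma rk_sum [Fintype H] (ψ : H →* ℂˣ) :
    ∑ h : H, ((ρ.character (h : G) : ℚ) : ℂ) * (((ψ h)⁻¹ : ℂˣ) : ℂ)
      = (rk ρ H ψ : ℂ) * (Nat.card H : ℂ) := by
  have h := mult_sum ρ H.subtype (linRep ψ)
  rw [rk, ← h]
  refine Finset.sum_congr rfl fun x _ => ?_
  rw [linRep_char, map_inv]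
  rfl

lemma pow_orderOf_apply (ψ : H →* ℂˣ) (h : H) : ((ψ h : ℂˣ) : ℂ) ^ orderOf ψ = 1 := by
  rw [← Units.val_pow_eq_pow_val]
  have h1 : (ψ ^ orderOf ψ) h = 1 := by rw [pow_orderOf_eq_one]; rfl
  have h2 : (ψ ^ orderOf ψ) h = ψ h ^ orderOf ψ := rfl
  rw [← h2, h1, Units.val_one]

lemma orderOf_lin_pos (ψ : H →* ℂˣ) : 0 < orderOf ψ := by
  rw [orderOf_pos_iff, isOfFinOrder_iff_pow_eq_one]
  refine ⟨Nat.card H, Nat.card_pos, ?_⟩
  ext h
  change (((ψ h) ^ Nat.card H : ℂˣ) : ℂ) = 1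
  rw [← map_pow, pow_card_eq_one', map_one, Units.val_one]

/-- conjugate characters have the same multiplicity in a rational representation -/
lemma rk_pow (ψ : H →* ℂˣ) (k : ℕ) (hk : k.Coprime (orderOf ψ)) :
    rk ρ H (ψ ^ k) = rk ρ H ψ := by
  classical
  have : Fintype H := Fintype.ofFinite H
  have hH : (Nat.card H : ℂ) ≠ 0 := by exact_mod_cast Nat.card_pos.ne'
  have h1 := rk_sum ρ H ψ
  have h2 := rk_sum ρ H (ψ ^ k)
  have h3 := galois_inv (Finset.univ : Finset H) (fun h => ρ.character (h : G))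
    (fun h => (((ψ h)⁻¹ : ℂˣ) : ℂ)) (orderOf ψ) (orderOf_lin_pos H ψ)
    (by
      intro h _
      have h4 := pow_orderOf_apply H ψ h⁻¹
      rw [map_inv] at h4
      exact h4) ((rk ρ H ψ : ℚ) * (Nat.card H : ℚ)) (by
      rw [h1]
      push_cast
      rfl) k hk
  have h4 : ∀ h : H, (((ψ h)⁻¹ : ℂˣ) : ℂ) ^ k = ((((ψ ^ k) h)⁻¹ : ℂˣ) : ℂ) := by
    intro h
    rw [← Units.val_pow_eq_pow_val, inv_pow]
    rfl
  simp_rw [h4] at h3
  rw [h2] at h3
  push_cast at h3
  have h5 := mul_right_cancel₀ hH h3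
  exact_mod_cast h5

/-- sums over the powers of a character -/
lemma sum_pow_char [Fintype H] (f : H → ℂ) (ψ : H →* ℂˣ) [DecidablePred fun h : H => ψ h = 1] :
    ∑ i ∈ Finset.range (orderOf ψ), ∑ h : H, f h * ((((ψ ^ i) h)⁻¹ : ℂˣ) : ℂ)
      = (orderOf ψ : ℂ) * ∑ h : H, (if ψ h = 1 then f h else 0) := by
  classical
  rw [Finset.sum_comm]
  have h1 : ∀ h : H, ∑ i ∈ Finset.range (orderOf ψ), f h * ((((ψ ^ i) h)⁻¹ : ℂˣ) : ℂ)
      = (orderOf ψ : ℂ) * (if ψ h = 1 then f h else 0) := by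
    intro h
    rw [← Finset.mul_sum]
    have h2 : ∀ i ∈ Finset.range (orderOf ψ), ((((ψ ^ i) h)⁻¹ : ℂˣ) : ℂ)
        = ((((ψ h)⁻¹ : ℂˣ) : ℂ)) ^ i := by
      intro i _
      rw [← Units.val_pow_eq_pow_val, inv_pow]
      rfl
    rw [Finset.sum_congr rfl h2]
    by_cases h3 : ψ h = 1
    · rw [if_pos h3, h3]
      simp [mul_comm]
    · rw [if_neg h3, mul_zero]
      have h4 : ((((ψ h)⁻¹ : ℂˣ) : ℂ)) ≠ 1 := by
        intro h5
        apply h3
        have h6 : (ψ h)⁻¹ = 1 := by
          apply Units.ext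
          rw [h5, Units.val_one]
        rwa [inv_eq_one] at h6
      have h5 : ((((ψ h)⁻¹ : ℂˣ) : ℂ)) ^ orderOf ψ = 1 := by
        have h6 := pow_orderOf_apply H ψ h⁻¹
        rw [map_inv] at h6
        exact h6
      have h6 := geom_sum_mul (((ψ h)⁻¹ : ℂˣ) : ℂ) (orderOf ψ)
      rw [h5, sub_self] at h6
      rw [(mul_eq_zero.mp h6).resolve_right (sub_ne_zero.mpr h4), mul_zero]
  rw [Finset.sum_congr rfl (fun h _ => h1 h), ← Finset.mul_sum]

/-- the kernel of a character of a subgroup, as a subgroup of `G` -/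
def kerG (ψ : H →* ℂˣ) : Subgroup G := ψ.ker.map H.subtype

lemma kerG_cyclic (hH : IsCyclic H) (ψ : H →* ℂˣ) : IsCyclic (kerG H ψ) := by
  have h1 : IsCyclic ψ.ker := inferInstance
  exact isCyclic_of_surjective (ψ.ker.equivMapOfInjective H.subtype
    H.subtype_injective).toMonoidHom (ψ.ker.equivMapOfInjective H.subtype
    H.subtype_injective).surjective

lemma sum_kerG [Fintype H] (f : G → ℂ) (ψ : H →* ℂˣ) [DecidablePred fun h : H => ψ h = 1]
    [Fintype (kerG H ψ)] :
    ∑ h : H, (if ψ h = 1 then f h else 0) = ∑ h : kerG H ψ, f h := by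
  have hKle : kerG H ψ ≤ H := by
    rintro x ⟨y, -, rfl⟩
    exact y.2
  rw [← Finset.sum_filter]
  symm
  refine Finset.sum_bij' (fun x _ => (⟨(x : G), hKle x.2⟩ : H))
    (fun y hy => (⟨(y : G), ⟨y, by
      rw [Finset.mem_filter] at hy
      exact hy.2, rfl⟩⟩ : kerG H ψ)) ?_ ?_ ?_ ?_ ?_
  · intro x _
    rw [Finset.mem_filter]
    refine ⟨Finset.mem_univ _, ?_⟩
    obtain ⟨y, hy, hyx⟩ := x.2
    have h2 : (⟨(x : G), hKle x.2⟩ : H) = y := Subtype.ext hyx.symm
    rw [h2]
    exact hy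
  · intro y _
    exact Finset.mem_univ _
  · intro x _
    rfl
  · intro y _
    rfl
  · intro x _
    rfl

/-- the multiplicities of the powers of `ψ` add up to at most the dimension -/
lemma rk_le (ψ : H →* ℂˣ) : (orderOf ψ).totient * rk ρ H ψ ≤ Module.finrank ℚ V := by
  classical
  have : Fintype G := Fintype.ofFinite G
  have : Fintype H := Fintype.ofFinite H
  have : Fintype (kerG H ψ) := Fintype.ofFinite _
  have h1 := sum_pow_char H (fun h => ((ρ.character (h : G) : ℚ) : ℂ)) ψ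
  rw [sum_kerG H (fun g => ((ρ.character g : ℚ) : ℂ)) ψ, fixed_sum] at h1
  rw [Finset.sum_congr rfl (fun i _ => rk_sum ρ H (ψ ^ i)), ← Finset.sum_mul] at h1
  have h2 : (∑ i ∈ Finset.range (orderOf ψ), rk ρ H (ψ ^ i)) * Nat.card H
      = orderOf ψ * (fixedRank ρ (kerG H ψ) * Nat.card (kerG H ψ)) := by
    exact_mod_cast h1
  have h3 : orderOf ψ * Nat.card (kerG H ψ) ≤ Nat.card H := by
    have h4 : Nat.card (kerG H ψ) = Nat.card ψ.ker :=
      (Nat.card_congr (ψ.ker.equivMapOfInjective H.subtype H.subtype_injective).toEquiv).symm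
    have h5 : orderOf ψ ∣ Nat.card ψ.range := by
      apply orderOf_dvd_of_pow_eq_one
      ext h
      have h6 : (⟨ψ h, h, rfl⟩ : ψ.range) ^ Nat.card ψ.range = 1 := pow_card_eq_one'
      have h7 := congrArg (fun x : ψ.range => ((x : ℂˣ) : ℂ)) h6
      simpa using h7
    have h6 := Subgroup.card_mul_index ψ.ker
    rw [Subgroup.index_ker] at h6
    rw [h4, ← h6, mul_comm]
    exact Nat.mul_le_mul_left _ (Nat.le_of_dvd Nat.card_pos h5)
  have h4 : fixedRank ρ (kerG H ψ) ≤ Module.finrank ℚ V := Submodule.finrank_le _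
  have h5 : (∑ i ∈ Finset.range (orderOf ψ), rk ρ H (ψ ^ i)) ≤ Module.finrank ℚ V := by
    have h6 : (∑ i ∈ Finset.range (orderOf ψ), rk ρ H (ψ ^ i)) * Nat.card H
        ≤ Module.finrank ℚ V * Nat.card H := by
      rw [h2]
      calc orderOf ψ * (fixedRank ρ (kerG H ψ) * Nat.card (kerG H ψ))
          = fixedRank ρ (kerG H ψ) * (orderOf ψ * Nat.card (kerG H ψ)) := by ring
        _ ≤ _ := Nat.mul_le_mul h4 h3
    exact Nat.le_of_mul_le_mul_right h6 Nat.card_pos
  refine le_trans ?_ h5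
  have h6 : ∑ i ∈ (Finset.range (orderOf ψ)).filter (fun i => (orderOf ψ).Coprime i),
      rk ρ H (ψ ^ i) = (orderOf ψ).totient * rk ρ H ψ := by
    rw [Finset.sum_congr rfl (fun i hi => rk_pow ρ H ψ i (Finset.mem_filter.mp hi).2.symm),
      Finset.sum_const, smul_eq_mul]
    rfl
  rw [← h6]
  exact Finset.sum_le_sum_of_subset (Finset.filter_subset _ _)

end cyclic

/-- Sums of `θ` and of the character of `V` over cyclic subgroups agree. -/
lemma sum_sub_eq (hbsd : ∀ H : Subgroup G, IsCyclic H →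
      D.Order H.subtype (fun _ => 1) (fixedRank ρ H)) (K : Subgroup G) (hK : IsCyclic K)
    [Fintype K] : ∑ h : K, (theta D.ord (h : G) - ((ρ.character (h : G) : ℚ) : ℂ)) = 0 := by
  rw [Finset.sum_sub_distrib, fixed_sum]
  have h1 := (hbsd K hK).sum
  simp only [mul_one, Subgroup.subtype_apply] at h1
  rw [h1]
  push_cast
  ring

/-- **Main lemma.** The function of the orders agrees with the character of `V` at `g`. -/
theorem theta_eq (e : ℕ)
    (hbsd : ∀ H : Subgroup G, IsCyclic H → D.Order H.subtype (fun _ => 1) (fixedRank ρ H)) (g : G)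
    (hol : ∀ ψ : Subgroup.zpowers g →* ℂˣ, 2 < (orderOf ψ).totient →
      ∃ k : ℕ, D.Order (Subgroup.zpowers g).subtype (lin ψ) k)
    (hgal : ∀ ψ ψ' : Subgroup.zpowers g →* ℂˣ, 2 < (orderOf ψ).totient →
      orderOf ψ' = orderOf ψ → ∀ k : ℕ, k < e →
        D.Order (Subgroup.zpowers g).subtype (lin ψ) k →
        ∃ k' : ℕ, k' ≤ k ∧ D.Order (Subgroup.zpowers g).subtype (lin ψ') k')
    (hsmall : ∀ ψ : Subgroup.zpowers g →* ℂˣ, 2 < (orderOf ψ).totient →
      rk ρ (Subgroup.zpowers g) ψ ≤ e) : theta D.ord g = ((ρ.character g : ℚ) : ℂ) := by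
  classical
  have : Fintype G := Fintype.ofFinite G
  let H : Subgroup G := Subgroup.zpowers g
  have hH : IsCyclic H := inferInstanceAs (IsCyclic (Subgroup.zpowers g))
  have : Fintype H := Fintype.ofFinite H
  have hcH : (Nat.card H : ℂ) ≠ 0 := by exact_mod_cast Nat.card_pos.ne'
  have hex : ∀ ψ : H →* ℂˣ, ∃ k : ℤ, D.Order H.subtype (lin ψ) k := by
    intro ψ
    have h1 : (linRep ψ).character = lin ψ := by
      funext h
      exact linRep_char ψ h
    rw [← h1]
    exact exists_order D H.subtype (linRep ψ)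
  choose t ht using hex
  have hts : ∀ ψ : H →* ℂˣ, ∑ h : H, theta D.ord (h : G) * (((ψ h)⁻¹ : ℂˣ) : ℂ)
      = (t ψ : ℂ) * (Nat.card H : ℂ) := by
    intro ψ
    have h1 := (ht ψ).sum
    rw [← h1]
    refine Finset.sum_congr rfl fun x _ => ?_
    simp only [lin, map_inv]
    rfl
  -- a value is determined by the sum
  have huniq : ∀ (ψ : H →* ℂˣ) (k : ℤ), D.Order H.subtype (lin ψ) k → k = t ψ := by
    intro ψ k hk
    have h1 := hk.sum
    have h2 := (ht ψ).sum
    rw [h1] at h2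
    have h3 := mul_right_cancel₀ hcH h2
    exact_mod_cast h3
  have key := comb (D := (H →* ℂˣ)) (orderOf_lin_pos H) t
    (fun ψ => (rk ρ H ψ : ℤ)) (e : ℤ) ?_ ?_ ?_ ?_ ?_
  · -- Fourier inversion
    let _ : CommGroup H := { (inferInstance : Group H) with
      mul_comm := Pool.Agent.H302R2.zpowers_comm g }
    have h1 := fourier_zero (E := H)
      (fun h => theta D.ord (h : G) - ((ρ.character (h : G) : ℚ) : ℂ)) (by
      intro ψ
      simp_rw [sub_mul]
      rw [Finset.sum_sub_distrib, hts ψ, rk_sum ρ H ψ]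
      have h2 := key ψ
      have h3 : (t ψ : ℂ) = (rk ρ H ψ : ℂ) := by exact_mod_cast h2
      rw [h3, sub_self]) ⟨g, Subgroup.mem_zpowers g⟩
    exact sub_eq_zero.mp h1
  · -- real
    intro ψ
    have h1 := hts ψ
    have h2 := hts ψ⁻¹
    have h3 : ∑ h : H, theta D.ord (h : G) * (((ψ⁻¹ h)⁻¹ : ℂˣ) : ℂ)
        = ∑ h : H, theta D.ord (h : G) * (((ψ h)⁻¹ : ℂˣ) : ℂ) := by
      rw [← Equiv.sum_comp (Equiv.inv H)]
      refine Finset.sum_congr rfl fun x _ => ?_
      rw [Equiv.inv_apply, Subgroup.coe_inv, theta_inv]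
      simp
    rw [h3, h1] at h2
    have h4 := mul_right_cancel₀ hcH h2
    exact_mod_cast h4.symm
  · intro ψ k hk
    exact_mod_cast rk_pow ρ H ψ k hk
  · -- sums over the powers
    intro ψ
    have : Fintype (kerG H ψ) := Fintype.ofFinite _
    have hK := sum_sub_eq D ρ hbsd (kerG H ψ) (kerG_cyclic H hH ψ)
    rw [← sum_kerG H (fun g => theta D.ord g - ((ρ.character g : ℚ) : ℂ)) ψ] at hK
    have h1 := sum_pow_char H (fun h => theta D.ord (h : G) - ((ρ.character (h : G) : ℚ) : ℂ)) ψ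
    rw [hK, mul_zero] at h1
    have h2 : ∀ i, ∑ h : H, (theta D.ord (h : G) - ((ρ.character (h : G) : ℚ) : ℂ))
        * ((((ψ ^ i) h)⁻¹ : ℂˣ) : ℂ)
        = ((t (ψ ^ i) : ℂ) - (rk ρ H (ψ ^ i) : ℂ)) * (Nat.card H : ℂ) := by
      intro i
      simp_rw [sub_mul]
      rw [Finset.sum_sub_distrib, hts (ψ ^ i), rk_sum ρ H (ψ ^ i)]
    rw [Finset.sum_congr rfl (fun i _ => h2 i), ← Finset.sum_mul] at h1
    have h3 := (mul_eq_zero.mp h1).resolve_right hcH
    rw [Finset.sum_sub_distrib, sub_eq_zero] at h3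
    exact_mod_cast h3
  · intro ψ ψ' hφ hord hlt
    obtain ⟨k, hk⟩ := hol ψ hφ
    have h1 := huniq ψ k hk
    have hlt' : k < e := by
      rw [← h1] at hlt
      exact_mod_cast hlt
    obtain ⟨k', hk', ho⟩ := hgal ψ ψ' hφ hord k hlt' hk
    have h2 := huniq ψ' k' ho
    rw [← h1, ← h2]
    exact_mod_cast hk'
  · intro ψ hψ
    exact_mod_cast hsmall ψ hψ

/-- the character of a rational representation is constant on the generators of a cyclic group -/
lemma char_pow (g : G) (k : ℕ) (hk : k.Coprime (orderOf g)) :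
    ρ.character (g ^ k) = ρ.character g := by
  classical
  let E : Subgroup G := Subgroup.zpowers g
  have hθ : Pool.Agent.H302R2.IsHeilbronn (fun x : E => ((ρ.character (x : G) : ℚ) : ℂ)) := by
    refine ⟨?_, ?_⟩
    · intro x y
      have h7 : y * x * y⁻¹ = x := by
        rw [Pool.Agent.H302R2.zpowers_comm g y x, mul_assoc, mul_inv_cancel, mul_one]
      rw [h7]
    · intro K χ
      have : Fintype K := Fintype.ofFinite K
      have h1 := mult_sum ρ (E.subtype.comp K.subtype) (linRep χ)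
      refine ⟨multiplicity (linRep χ) (ρ.comp (E.subtype.comp K.subtype)), ?_⟩
      rw [← h1, finsum_eq_sum_of_fintype]
      refine Finset.sum_congr rfl fun x _ => ?_
      rw [linRep_char, map_inv]
      rfl
  obtain ⟨ι, _, ψ, n, h⟩ := hθ.comm_decomp (Pool.Agent.H302R2.zpowers_comm g)
  let x : E := ⟨g, Subgroup.mem_zpowers g⟩
  have h1 := h x
  have h2 := h (x ^ k)
  have h3 := galois_inv (Finset.univ : Finset ι) (fun i => (n i : ℚ))
    (fun i => ((ψ i x : ℂˣ) : ℂ)) (orderOf g) (orderOf_pos g) (by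
      intro i _
      have h4 : x ^ orderOf g = 1 := by
        apply Subtype.ext
        change g ^ orderOf g = 1
        exact pow_orderOf_eq_one g
      rw [← Units.val_pow_eq_pow_val, ← map_pow, h4, map_one, Units.val_one])
    (ρ.character g) (by
      have h5 : ((x : E) : G) = g := rfl
      rw [h5] at h1
      rw [h1]
      push_cast
      rfl) k hk
  have h4 : ((ρ.character (g ^ k) : ℚ) : ℂ) = ((ρ.character g : ℚ) : ℂ) := by
    rw [← h3]
    have h5 : (((x ^ k : E)) : G) = g ^ k := rfl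
    rw [h5] at h2
    rw [h2]
    refine Finset.sum_congr rfl fun i _ => ?_
    rw [map_pow, Units.val_pow_eq_pow_val]
    push_cast
    rfl
  exact_mod_cast h4

lemma theta_conj (g x : G) : theta D.ord (x * g * x⁻¹) = theta D.ord g := by
  unfold theta
  exact Finset.sum_congr rfl fun χ hχ => by rw [Irr.conj (mem_irrF.mp hχ)]

/-- sums over the powers of an element -/
lemma sum_zpowers (g : G) [Fintype (Subgroup.zpowers g)] (f : G → ℂ) :
    ∑ i ∈ Finset.range (orderOf g), f (g ^ i) = ∑ h : Subgroup.zpowers g, f h := by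
  classical
  rw [← Fin.sum_univ_eq_sum_range (fun i => f (g ^ i)) (orderOf g)]
  exact Equiv.sum_comp (finEquivZPowers (isOfFinOrder_of_finite g)) (fun h => f h)

/-- Equality at all elements. -/
theorem theta_all (e : ℕ)
    (hbsd : ∀ H : Subgroup G, IsCyclic H → D.Order H.subtype (fun _ => 1) (fixedRank ρ H))
    (h : ∀ g : G, (∀ k : ℕ, k.Coprime (orderOf g) → IsConj g (g ^ k) ∨ IsConj g⁻¹ (g ^ k)) ∨
      ((∀ ψ : Subgroup.zpowers g →* ℂˣ, 2 < (orderOf ψ).totient →
        rk ρ (Subgroup.zpowers g) ψ ≤ e) ∧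
      (∀ ψ : Subgroup.zpowers g →* ℂˣ, 2 < (orderOf ψ).totient →
        ∃ k : ℕ, D.Order (Subgroup.zpowers g).subtype (lin ψ) k) ∧
      (∀ ψ ψ' : Subgroup.zpowers g →* ℂˣ, 2 < (orderOf ψ).totient →
        orderOf ψ' = orderOf ψ → ∀ k : ℕ, k < e →
          D.Order (Subgroup.zpowers g).subtype (lin ψ) k →
          ∃ k' : ℕ, k' ≤ k ∧ D.Order (Subgroup.zpowers g).subtype (lin ψ') k'))) :
    ∀ (n : ℕ) (g : G), orderOf g = n → theta D.ord g = ((ρ.character g : ℚ) : ℂ) := by
  classical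
  intro n
  induction n using Nat.strong_induction_on with
  | _ n ih =>
  intro g hg
  rcases h g with hc | ⟨h1, h2, h3⟩
  · have : Fintype (Subgroup.zpowers g) := Fintype.ofFinite _
    have hn : 0 < n := by rw [← hg]; exact orderOf_pos g
    have h1 := sum_sub_eq D ρ hbsd (Subgroup.zpowers g) inferInstance
    rw [← sum_zpowers g (fun x => theta D.ord x - ((ρ.character x : ℚ) : ℂ)), hg,
      ← Finset.sum_filter_add_sum_filter_not (Finset.range n) (fun i => n.Coprime i)] at h1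
    have h2 : ∑ i ∈ (Finset.range n).filter (fun i => ¬ n.Coprime i),
        (theta D.ord (g ^ i) - ((ρ.character (g ^ i) : ℚ) : ℂ)) = 0 := by
      refine Finset.sum_eq_zero fun i hi => ?_
      rw [Finset.mem_filter] at hi
      have h3 : orderOf (g ^ i) < n := by
        rw [orderOf_pow, hg]
        have hg' : 1 < n.gcd i := by
          have h5 : n.gcd i ≠ 0 := (Nat.gcd_pos_of_pos_left _ hn).ne'
          have h6 : n.gcd i ≠ 1 := hi.2
          omega
        exact Nat.div_lt_self hn hg'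
      rw [ih _ h3 (g ^ i) rfl, sub_self]
    rw [h2, add_zero] at h1
    have h3 : ∀ i ∈ (Finset.range n).filter (fun i => n.Coprime i),
        (theta D.ord (g ^ i) - ((ρ.character (g ^ i) : ℚ) : ℂ))
          = theta D.ord g - ((ρ.character g : ℚ) : ℂ) := by
      intro i hi
      rw [Finset.mem_filter] at hi
      have hco : i.Coprime (orderOf g) := by rw [hg]; exact hi.2.symm
      rw [char_pow ρ g i hco]
      congr 1
      rcases hc i hco with h4 | h4
      · obtain ⟨c, hc'⟩ := isConj_iff.mp h4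
        rw [← hc', theta_conj]
      · obtain ⟨c, hc'⟩ := isConj_iff.mp h4
        rw [← hc', theta_conj, theta_inv]
    rw [Finset.sum_congr rfl h3, Finset.sum_const, nsmul_eq_mul] at h1
    have h4 : ((((Finset.range n).filter (fun i => n.Coprime i)).card : ℕ) : ℂ) ≠ 0 := by
      have h5 : 0 < n.totient := Nat.totient_pos.mpr hn
      have h6 : ((Finset.range n).filter (fun i => n.Coprime i)).card = n.totient := rfl
      rw [h6]
      exact_mod_cast h5.ne'
    exact sub_eq_zero.mp ((mul_eq_zero.mp h1).resolve_left h4)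
  · exact theta_eq D ρ e hbsd g h2 h3 h1

/-- **Theorem.** -/
theorem main (e : ℕ)
    (hbsd : ∀ H : Subgroup G, IsCyclic H → D.Order H.subtype (fun _ => 1) (fixedRank ρ H))
    (h : ∀ g : G, (∀ k : ℕ, k.Coprime (orderOf g) → IsConj g (g ^ k) ∨ IsConj g⁻¹ (g ^ k)) ∨
      ((∀ ψ : Subgroup.zpowers g →* ℂˣ, 2 < (orderOf ψ).totient →
        rk ρ (Subgroup.zpowers g) ψ ≤ e) ∧
      (∀ ψ : Subgroup.zpowers g →* ℂˣ, 2 < (orderOf ψ).totient →
        ∃ k : ℕ, D.Order (Subgroup.zpowers g).subtype (lin ψ) k) ∧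
      (∀ ψ ψ' : Subgroup.zpowers g →* ℂˣ, 2 < (orderOf ψ).totient →
        orderOf ψ' = orderOf ψ → ∀ k : ℕ, k < e →
          D.Order (Subgroup.zpowers g).subtype (lin ψ) k →
          ∃ k' : ℕ, k' ≤ k ∧ D.Order (Subgroup.zpowers g).subtype (lin ψ') k')))
    (W : Type) [AddCommGroup W] [Module ℂ W] [FiniteDimensional ℂ W]
    (τ : Representation ℂ G W) :
    D.Order (MonoidHom.id G) τ.character (multiplicity τ ρ) := by
  classical
  have : Fintype G := Fintype.ofFinite G
  have hcG : (Nat.card G : ℂ) ≠ 0 := by exact_mod_cast Nat.card_pos.ne'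
  obtain ⟨k, hk⟩ := exists_order D (MonoidHom.id G) τ
  have h1 := hk.sum
  have h2 := mult_sum ρ (MonoidHom.id G) τ
  have h3 : ∑ h : G, theta D.ord ((MonoidHom.id G) h) * τ.character h⁻¹
      = ∑ h : G, ((ρ.character ((MonoidHom.id G) h) : ℚ) : ℂ) * τ.character h⁻¹ :=
    Finset.sum_congr rfl fun g _ => by
      rw [MonoidHom.id_apply, theta_all D ρ e hbsd h _ g rfl]
  rw [h1, h2] at h3
  have h4 := mul_right_cancel₀ hcG h3
  have h5 : k = ((multiplicity τ (ρ.comp (MonoidHom.id G)) : ℕ) : ℤ) := by exact_mod_cast h4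
  have h6 : ρ.comp (MonoidHom.id G) = ρ := MonoidHom.comp_id ρ
  rw [h6] at h5
  rw [← h5]
  exact hk

end Pool.Agent.N28.EB
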